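import Mathlib
import Pool.Agent.Results.MP_9b502d_nt.LargeCriticalHeight
import Pool.Agent.X328.TAU.Fin2
import Pool.Agent.X319.GN.NORM
import Pool.Agent.X200.Del
import Pool.Agent.X328.GN.It
import Pool.Agent.X60.TAU.Spec
import Pool.Agent.X17.TAU.RIG
import Pool.Agent.X200.TAU.CHI
import Pool.Agent.X191.TAU.ALG
import Pool.Agent.X104.TAU.TR
import Pool.Agent.X288.TAU.INF2
import Pool.Agent.X135.TAU.SP
import Pool.Agent.X328.TAU.QI
import Pool.Agent.X328.TAU.C2
import Pool.Agent.X328.TAU.DIG

/-!
# The multipliers of periods one and two are generically finite-to-one on the moduli space of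
rational maps of every degree
-/

set_option autoImplicit false

namespace Pool.Agent.Results.MP_740d3f_ag.GenericFiniteness

open Polynomial
open Pool.Agent.Results.MP_9b502d_nt.LargeCriticalHeight (Conjugate)

universe u

/-- The value of the polynomial `Δ` in `2 d + 2` variables at the coefficients of `p` and `q`. -/
noncomputable def coeffValue {K : Type*} [Field K] (d : ℕ)
    (Δ : MvPolynomial (Fin (d + 1) ⊕ Fin (d + 1)) ℤ) (p q : K[X]) : K :=
  MvPolynomial.aeval (Sum.elim (fun i : Fin (d + 1) => p.coeff i)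
    (fun i : Fin (d + 1) => q.coeff i)) Δ

/-- The numerator (for `F = p`) and the denominator (for `F = q`) of the second iterate `f ∘ f` of
`f = p / q` of degree `d`: the polynomial `q ^ d F(p / q)`. -/
noncomputable def second {K : Type*} [Field K] (d : ℕ) (p q F : K[X]) : K[X] :=
  ∑ i ∈ Finset.range (d + 1), C (F.coeff i) * p ^ i * q ^ (d - i)

/-- The multiplier `g'(x)` of the finite fixed point `x` of `g = P / R`. -/
noncomputable def multiplier {K : Type*} [Field K] (P R : K[X]) (x : K) : K :=
  (derivative P * R - P * derivative R).eval x / R.eval x ^ 2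

/-- The multiset of the multipliers of the finite fixed points of `P / R`, which are the roots of
`P - X R`, counted with multiplicity. -/
noncomputable def spectrum {K : Type*} [Field K] (P R : K[X]) : Multiset K :=
  (P - X * R).roots.map (multiplier P R)

/-- **Generic finiteness of the multiplier map of periods one and two.** For every `d ≥ 2` there are a
nonzero polynomial `Δ` with integer coefficients in the `2 d + 2` coefficients of a rational map
`f = p / q` of degree `d` and a number `N` with the following properties.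

(1) If `Δ` does not vanish for `f = p / q` (over a field of characteristic zero), then `∞` is not a
fixed point of `f` nor of `f ∘ f`: the polynomials `p - X q` and `P - X R`, where `P / R = f ∘ f`, have
degrees `d + 1` and `d ^ 2 + 1`.

(2) Among any `N + 1` rational maps of degree `d` over an algebraically closed field of characteristic
zero for which `Δ` does not vanish and which have the same multipliers of the fixed points of `f` and
the same multipliers of the fixed points of `f ∘ f` (counted with multiplicity), two are conjugate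
by a Moebius map. -/
theorem result (d : ℕ) (hd : 2 ≤ d) : ∃ Δ : MvPolynomial (Fin (d + 1) ⊕ Fin (d + 1)) ℤ, Δ ≠ 0 ∧
    (∀ (K : Type u) [Field K] [CharZero K] (p q : K[X]), p.natDegree ≤ d → q.natDegree ≤ d →
      coeffValue d Δ p q ≠ 0 → (p - X * q).natDegree = d + 1 ∧
        (second d p q p - X * second d p q q).natDegree = d ^ 2 + 1) ∧
    ∃ N : ℕ, ∀ (K : Type u) [Field K] [CharZero K] [IsAlgClosed K] (p q : Fin (N + 1) → K[X]),
      (∀ i, IsCoprime (p i) (q i) ∧ max (p i).natDegree (q i).natDegree = d ∧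
        coeffValue d Δ (p i) (q i) ≠ 0) →
      (∀ i, spectrum (p i) (q i) = spectrum (p 0) (q 0) ∧
        spectrum (second d (p i) (q i) (p i)) (second d (p i) (q i) (q i)) =
          spectrum (second d (p 0) (q 0) (p 0)) (second d (p 0) (q 0) (q 0))) →
      ∃ i j, i ≠ j ∧ Conjugate (p i) (q i) (p j) (q j) d := by
  have hRIG : Pool.Agent.X328.TAU.S_RIG.{0} := Pool.Agent.X17.TAU.t_RIG Pool.Agent.X328.GN.It.it_all
    Pool.Agent.X328.TAU.t_DIG
  have hALG : Pool.Agent.X328.TAU.S_ALG := Pool.Agent.X191.TAU.t_ALG hRIG (Pool.Agent.X200.TAU.t_CHI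
    Pool.Agent.X328.GN.It.it_all) Pool.Agent.X328.GN.It.it_all
  have hSPEC : Pool.Agent.X328.TAU.S_SPEC.{u} := Pool.Agent.X60.TAU.t_SPEC hALG
    (Pool.Agent.X200.TAU.t_CHI Pool.Agent.X328.GN.It.it_all)
    (Pool.Agent.X200.TAU.t_CHI Pool.Agent.X328.GN.It.it_all)
  obtain ⟨Δ, hΔ, h1, N, h2⟩ := Pool.Agent.X328.TAU.fin2.{u} (fun d hd =>
      Pool.Agent.X328.TAU.fin.{u, u} (Pool.Agent.X200.TAU.t_CHI Pool.Agent.X328.GN.It.it_all) hSPEC
      d hd) (fun d hd => by
      obtain ⟨D, M, G, hD, h⟩ := hSPEC d hd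
      exact ⟨D, hD, fun K _ _ κ hκ => (h K κ hκ).2.1⟩)
    Pool.Agent.X319.GN.t_NORM Pool.Agent.X200.Del.t_DEL Pool.Agent.X104.TAU.t_TR
    Pool.Agent.X328.TAU.t_C2 Pool.Agent.X135.TAU.t_SP Pool.Agent.X328.TAU.t_QI
    Pool.Agent.X288.TAU.t_INF2 d hd
  refine ⟨Δ, hΔ, ?_, N, ?_⟩
  · intro K _ _ p q hp hq hne
    have h3 := h1 K p q hp hq hne
    rw [Pool.Agent.X328.TAU.it_two d p q hp hq] at h3
    exact h3
  · intro K _ _ _ p q hpq hs
    have hi : ∀ i, (p i).natDegree ≤ d ∧ (q i).natDegree ≤ d := fun i =>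
      ⟨(le_max_left _ _).trans (hpq i).2.1.le, (le_max_right _ _).trans (hpq i).2.1.le⟩
    refine h2 K (fun i => (p i, q i)) hpq fun i => ⟨(hs i).1, ?_⟩
    show Pool.Agent.X328.TAU.spec (Pool.Agent.X328.GN.it d (p i) (q i) 2).1
      (Pool.Agent.X328.GN.it d (p i) (q i) 2).2 = Pool.Agent.X328.TAU.spec
      (Pool.Agent.X328.GN.it d (p 0) (q 0) 2).1 (Pool.Agent.X328.GN.it d (p 0) (q 0) 2).2
    rw [Pool.Agent.X328.TAU.it_two d _ _ (hi i).1 (hi i).2,
      Pool.Agent.X328.TAU.it_two d _ _ (hi 0).1 (hi 0).2]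
    exact (hs i).2

end Pool.Agent.Results.MP_740d3f_ag.GenericFiniteness
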